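import Pool.Agent.Q162.Benzel.T112

/-!
# MP_5ac57a_co : stone-and-bone tilings of the (n+2, 2n+1)-benzel

For every `n ≥ 1` and every choice `i` of the excluded bone direction, the number of tilings of the
`(n+2, 2n+1)`-benzel by right stones, left stones and the bones in the two other directions is the
large Schröder number `S_n`.
-/

namespace Pool.Agent.Results.MP_5ac57a_co.BenzelSchroeder

open Pool.Agent.Q162.Benzel

theorem result (i : Fin 3) (n : ℕ) (hn : 1 ≤ n) :
    T112 i ((n : ℤ) + 2) (2 * (n : ℤ) + 1) = schroeder n :=
  Pool.Agent.Q162.Bz.T112_larger' i n hn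

end Pool.Agent.Results.MP_5ac57a_co.BenzelSchroeder
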